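import Mathlib
import Pool.Agent.H706Z.WatD

set_option autoImplicit false

namespace Pool.Agent.Results.MP_ee4e20_al.NoQuadraticEmbedding

open MvPolynomial

universe u

/-- `f 1, ..., f r` are homogeneous polynomials in `r` variables forming a regular sequence, so
that the quotient by them is a standard graded Artinian complete intersection. -/
def IsCompleteIntersection {F : Type u} [Field F] {r : ℕ} (f : Fin r → MvPolynomial (Fin r) F) :
    Prop :=
  (∀ i, ∃ d, (f i).IsHomogeneous d) ∧
    RingTheory.Sequence.IsRegular (MvPolynomial (Fin r) F) (List.ofFn f)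

/-- `d` is the largest degree in which the quotient by `f 1, ..., f r` is nonzero. -/
def HasSocleDegree {F : Type u} [Field F] {r : ℕ} (f : Fin r → MvPolynomial (Fin r) F) (d : ℕ) :
    Prop :=
  IsGreatest {e : ℕ | ∃ p : MvPolynomial (Fin r) F,
    p.IsHomogeneous e ∧ p ∉ Ideal.span (Set.range f)} d

/-- Over every field there is a standard graded Artinian complete intersection that admits no
injective algebra map into a complete intersection of quadrics of the same socle degree. -/
theorem result (F : Type u) [Field F] :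
    ∃ (r : ℕ) (f : Fin r → MvPolynomial (Fin r) F) (d : ℕ),
      IsCompleteIntersection f ∧ HasSocleDegree f d ∧
      ∀ (N : ℕ) (G : Fin N → MvPolynomial (Fin N) F),
        IsCompleteIntersection G → (∀ i, (G i).IsHomogeneous 2) → HasSocleDegree G d →
        ∀ φ : (MvPolynomial (Fin r) F ⧸ Ideal.span (Set.range f)) →ₐ[F]
            (MvPolynomial (Fin N) F ⧸ Ideal.span (Set.range G)),
          ¬ Function.Injective φ := by
  refine ⟨5, H706Z.Wat.fam F, 6, ⟨fun i => ?_, H706Z.Wat.regular_fam⟩,
    ⟨⟨_, H706Z.Wat.soc_hom F, H706Z.Wat.soc_notMem⟩, ?_⟩, fun N G h1 h2 h3 φ => ?_⟩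
  · obtain ⟨d, _, hd⟩ := H706Z.Wat.fam_hom F i
    exact ⟨d, hd⟩
  · rintro e ⟨p, hp1, hp2⟩
    by_contra h
    exact hp2 (H706Z.Wat.high_mem p hp1 (by omega))
  · refine H706Z.Wat.no_embedding G h2 ((H706Z.Wat.weaklyRegular_iff G).mp h1.2.1) h3.1
      (fun e he p hp => ?_) φ
    by_contra h
    have := h3.2 ⟨p, hp, h⟩
    omega

end Pool.Agent.Results.MP_ee4e20_al.NoQuadraticEmbedding
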